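import Pool.Agent.H29.Alg

set_option autoImplicit false

namespace Pool.Agent.Results.MP_1dc069_an.MaxLineable

open Filter Topology Set
open Pool.Agent.H29.Alg

theorem result (I : Set ℝ) (hI : I.OrdConnected) (hn : I.Nontrivial) :
    ∃ M : Submodule ℝ (I → ℝ), Module.rank ℝ M = Cardinal.continuum ∧
      ∀ f ∈ M, ContDiffOn ℝ (⊤ : ℕ∞) (Function.extend Subtype.val f 0) I ∧
        (f ≠ 0 → ∀ x ∈ I, (FormalMultilinearSeries.ofScalars ℝ (fun n =>
          iteratedDerivWithin n (Function.extend Subtype.val f 0) I x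
            / (n.factorial : ℝ))).radius = 0) := by
  obtain ⟨a, ha, b, hb, hab⟩ := hn.exists_lt
  have hsub : Icc a b ⊆ I := hI.out ha hb
  have hU : UniqueDiffOn ℝ I := uniqueDiffOn_convex hI.convex
    ⟨(a + b) / 2, mem_interior_iff_mem_nhds.2 (mem_of_superset
      (Icc_mem_nhds (by linarith) (by linarith)) hsub)⟩
  let R : (ℝ → ℝ) →ₗ[ℝ] (I → ℝ) := LinearMap.funLeft ℝ ℝ (fun x : I => g x)
  have hm : StrictMono g := strictMono_of_deriv_pos fun x => by rw [(g_deriv x).deriv]; exact g_pos x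
  have hker : ∀ Φ : ℝ → ℝ, (∀ s, AnalyticAt ℝ Φ s) → R Φ = 0 → Φ = 0 := by
    intro Φ h h0
    have h1 := intermediate_value_Icc hab.le g_smooth.continuous.continuousOn
    refine AnalyticOnNhd.eq_of_eventuallyEq (fun s _ => h s) (fun _ _ => analyticAt_const)
      (z₀ := g ((a + b) / 2)) ?_
    filter_upwards [Icc_mem_nhds (hm (by linarith : a < (a + b) / 2))
      (hm (by linarith : (a + b) / 2 < b))] with s hs
    obtain ⟨x, hx, rfl⟩ := h1 hs
    exact congrFun h0 ⟨x, hsub hx⟩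
  have hli : LinearIndependent ℝ (fun l : Ioi (0 : ℝ) => R (E ℝ l)) := by
    refine LinearIndependent.map (f := R) ((E_ind ℝ).comp (Subtype.val : Ioi (0 : ℝ) → ℝ)
      Subtype.val_injective) ?_
    rw [Submodule.disjoint_def]
    intro Φ h1 h2
    refine hker Φ (span_ana ℝ univ Φ (Submodule.span_mono ?_ h1)) h2
    rintro _ ⟨l, rfl⟩
    exact ⟨l, trivial, rfl⟩
  refine ⟨Submodule.span ℝ (range fun l : Ioi (0 : ℝ) => R (E ℝ l)), ?_, ?_⟩
  · rw [rank_span hli, Cardinal.mk_range_eq _ hli.injective, Cardinal.mk_Ioi_real]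
  · intro f hf
    have h1 : f ∈ (Submodule.span ℝ (E ℝ '' Ioi 0)).map R := by
      rw [Submodule.map_span]
      refine Submodule.span_mono ?_ hf
      rintro _ ⟨l, rfl⟩
      exact ⟨_, ⟨l, l.2, rfl⟩, rfl⟩
    obtain ⟨Φ, h2, rfl⟩ := h1
    have han := span_ana ℝ _ Φ h2
    have hs : ContDiff ℝ (⊤ : ℕ∞) fun t => Φ (g t) :=
      (contDiff_iff_contDiffAt.2 fun s => (han s).contDiffAt).comp g_smooth
    have he : EqOn (Function.extend Subtype.val (R Φ) 0) (fun t => Φ (g t)) I := fun x hx =>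
      Subtype.val_injective.extend_apply (R Φ) 0 ⟨x, hx⟩
    refine ⟨hs.contDiffOn.congr he, fun hne x hx => ?_⟩
    have hn : ∃ s, Φ s ≠ Φ 0 := by
      by_contra h4
      push Not at h4
      have h5 : Φ 0 ≠ 0 := fun h => hne (by ext x; exact (h4 _).trans h)
      have h6 : (Φ 0)⁻¹ • Φ = E ℝ 0 := by
        ext s; simp [E, h4 s, h5]
      exact (E_ind ℝ).notMem_span_image (x := 0) (by simp) (h6 ▸ Submodule.smul_mem _ _ h2)
    rw [← rad_zero ℝ Φ han hn x]
    congr 3 with n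
    rw [iteratedDerivWithin_congr he hx, iteratedDerivWithin_eq_iteratedDeriv
      hU (hs.contDiffAt.of_le (by exact_mod_cast le_top)) hx]

end Pool.Agent.Results.MP_1dc069_an.MaxLineable
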